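import Mathlib

set_option autoImplicit false
set_option linter.unusedSectionVars false
set_option linter.unusedDecidableInType false
set_option linter.unusedFintypeInType false

/-! Upper domination, upper total domination and induced matchings. -/

namespace Pool.Agent.Lib.P5135a5

variable {V : Type} (G : SimpleGraph V)

/-- `S` is a dominating set: every vertex outside `S` has a neighbour in `S`. -/
def IsDominating (S : Finset V) : Prop := ∀ v, v ∉ S → ∃ u ∈ S, G.Adj v u

/-- `S` is a total dominating set: every vertex has a neighbour in `S`. -/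
def IsTotalDominating (S : Finset V) : Prop := ∀ v, ∃ u ∈ S, G.Adj v u

/-- The upper domination number: the maximum cardinality of a minimal dominating set. -/
noncomputable def upperDom : ℕ :=
  sSup {n | ∃ S : Finset V, Minimal (IsDominating G) S ∧ S.card = n}

/-- The upper total domination number: the maximum cardinality of a minimal total dominating
set. -/
noncomputable def upperTotalDom : ℕ :=
  sSup {n | ∃ S : Finset V, Minimal (IsTotalDominating G) S ∧ S.card = n}

/-- `S` is the vertex set of an induced matching: every vertex of `S` has exactly one neighbour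
in `S`. -/
def IsInducedMatchingSet (S : Finset V) : Prop := ∀ v ∈ S, ∃! w, w ∈ S ∧ G.Adj v w

/-- The induced matching number: the maximum number of edges of an induced matching. -/
noncomputable def inducedMatchingNum : ℕ :=
  sSup {n | ∃ S : Finset V, IsInducedMatchingSet G S ∧ S.card = 2 * n}

section Finite

variable [Fintype V]

theorem bdd {P : Finset V → ℕ → Prop} (hP : ∀ S n, P S n → n ≤ S.card) :
    BddAbove {n | ∃ S : Finset V, P S n} := by
  refine ⟨Fintype.card V, ?_⟩
  rintro n ⟨S, hS⟩
  exact (hP S n hS).trans (Finset.card_le_univ S)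

theorem card_le_upperDom {S : Finset V} (hS : Minimal (IsDominating G) S) :
    S.card ≤ upperDom G :=
  le_csSup (bdd (P := fun S n => Minimal (IsDominating G) S ∧ S.card = n)
    (fun _ _ h => h.2.ge)) ⟨S, hS, rfl⟩

theorem card_le_upperTotalDom {S : Finset V} (hS : Minimal (IsTotalDominating G) S) :
    S.card ≤ upperTotalDom G :=
  le_csSup (bdd (P := fun S n => Minimal (IsTotalDominating G) S ∧ S.card = n)
    (fun _ _ h => h.2.ge)) ⟨S, hS, rfl⟩

theorem card_le_inducedMatchingNum {S : Finset V} {n : ℕ} (hS : IsInducedMatchingSet G S)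
    (hn : S.card = 2 * n) : n ≤ inducedMatchingNum G :=
  le_csSup (bdd (P := fun S n => IsInducedMatchingSet G S ∧ S.card = 2 * n)
    (fun _ _ h => by have := h.2; omega)) ⟨S, hS, hn⟩

/-- A set with property `P` contains a minimal one. -/
theorem exists_minimal_sub {P : Finset V → Prop} (S : Finset V) (hS : P S) :
    ∃ D ⊆ S, Minimal P D := by
  classical
  obtain ⟨D, hD1, hD2⟩ := exists_minimal_le_of_wellFoundedLT P S hS
  exact ⟨D, hD1, hD2⟩

theorem exists_upperDom : ∃ S : Finset V, Minimal (IsDominating G) S ∧ S.card = upperDom G := by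
  classical
  have hne : {n | ∃ S : Finset V, Minimal (IsDominating G) S ∧ S.card = n}.Nonempty := by
    obtain ⟨D, _, hD⟩ := exists_minimal_sub (P := IsDominating G) Finset.univ
      (fun v hv => absurd (Finset.mem_univ v) hv)
    exact ⟨_, D, hD, rfl⟩
  exact Nat.sSup_mem hne (bdd (P := fun S n => Minimal (IsDominating G) S ∧ S.card = n)
    (fun _ _ h => h.2.ge))

theorem exists_upperTotalDom (hG : ∀ v, ∃ w, G.Adj v w) :
    ∃ S : Finset V, Minimal (IsTotalDominating G) S ∧ S.card = upperTotalDom G := by
  classical
  have hne : {n | ∃ S : Finset V, Minimal (IsTotalDominating G) S ∧ S.card = n}.Nonempty := by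
    obtain ⟨D, _, hD⟩ := exists_minimal_sub (P := IsTotalDominating G) Finset.univ
      (fun v => by
        obtain ⟨w, hw⟩ := hG v
        exact ⟨w, Finset.mem_univ w, hw⟩)
    exact ⟨_, D, hD, rfl⟩
  exact Nat.sSup_mem hne (bdd (P := fun S n => Minimal (IsTotalDominating G) S ∧ S.card = n)
    (fun _ _ h => h.2.ge))

theorem exists_inducedMatchingNum :
    ∃ S : Finset V, IsInducedMatchingSet G S ∧ S.card = 2 * inducedMatchingNum G := by
  classical
  have hne : {n | ∃ S : Finset V, IsInducedMatchingSet G S ∧ S.card = 2 * n}.Nonempty :=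
    ⟨0, ∅, fun v hv => absurd hv (Finset.notMem_empty v), by simp⟩
  exact Nat.sSup_mem hne (bdd (P := fun S n => IsInducedMatchingSet G S ∧ S.card = 2 * n)
    (fun _ _ h => by have := h.2; omega))

/-- Every independent set has at most `Γ(G)` vertices. -/
theorem indep_card_le (I : Finset V) (hI : ∀ x ∈ I, ∀ y ∈ I, ¬ G.Adj x y) :
    I.card ≤ upperDom G := by
  classical
  obtain ⟨J, hJ1, hJ2⟩ := exists_maximal_ge_of_wellFoundedGT
    (fun K : Finset V => ∀ x ∈ K, ∀ y ∈ K, ¬ G.Adj x y) I hI
  refine (Finset.card_le_card hJ1).trans (card_le_upperDom G ⟨?_, ?_⟩)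
  · intro v hv
    by_contra hcon
    push Not at hcon
    apply hv
    have hins : ∀ x ∈ insert v J, ∀ y ∈ insert v J, ¬ G.Adj x y := by
      intro x hx y hy
      rcases Finset.mem_insert.mp hx with h1 | h1 <;> rcases Finset.mem_insert.mp hy with h2 | h2
      · exact fun h => h.ne (h1.trans h2.symm)
      · rw [h1]; exact hcon y h2
      · rw [h2]; exact fun h => hcon x h1 h.symm
      · exact hJ2.prop x h1 y h2
    exact hJ2.le_of_ge hins (Finset.subset_insert v J) (Finset.mem_insert_self v J)
  · intro D hD hDJ v hv
    by_contra hvD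
    obtain ⟨u, hu, huv⟩ := hD v hvD
    exact hJ2.prop v hv u (hDJ hu) huv

end Finite

end Pool.Agent.Lib.P5135a5

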