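import Pool.Agent.Lib.P5135a5.Defs

set_option autoImplicit false
set_option linter.unusedSectionVars false

namespace Pool.Agent.Lib.P5135a5

variable {V : Type} (G : SimpleGraph V)

section Finite

variable [Fintype V]

/-- Choosing one end of every edge of an induced matching, all in `U`, where `U` contains at least
one end of every edge. -/
theorem exists_choice (S : Finset V) (hS : IsInducedMatchingSet G S) (U : V → Prop)
    (hU : ∀ v ∈ S, ∀ w ∈ S, G.Adj v w → U v ∨ U w) :
    ∃ C : Finset V, C ⊆ S ∧ (∀ x ∈ C, U x) ∧ (∀ x ∈ C, ∀ y ∈ C, ¬ G.Adj x y) ∧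
      S.card ≤ 2 * C.card := by
  classical
  obtain ⟨C, hC1, hC2⟩ := exists_maximal_ge_of_wellFoundedGT
    (fun K : Finset V => K ⊆ S ∧ (∀ x ∈ K, U x) ∧ ∀ x ∈ K, ∀ y ∈ K, ¬ G.Adj x y) ∅
    ⟨Finset.empty_subset _, by simp, by simp⟩
  obtain ⟨hCS, hCU, hCI⟩ := hC2.prop
  refine ⟨C, hCS, hCU, hCI, ?_⟩
  -- partner function
  have hp : ∀ v : V, ∃ w, v ∈ S → (w ∈ S ∧ G.Adj v w) ∧ ∀ z, z ∈ S ∧ G.Adj v z → z = w := by
    intro v
    by_cases hv : v ∈ S
    · obtain ⟨w, h1, h2⟩ := hS v hv
      exact ⟨w, fun _ => ⟨h1, h2⟩⟩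
    · exact ⟨v, fun h => absurd h hv⟩
  choose π hπ using hp
  have hππ : ∀ v ∈ S, π (π v) = v := by
    intro v hv
    obtain ⟨⟨h1, h2⟩, _⟩ := hπ v hv
    exact ((hπ _ h1).2 v ⟨hv, h2.symm⟩).symm
  have hmem : ∀ v ∈ S, U v → v ∈ C ∨ π v ∈ C := by
    intro v hv hUv
    by_contra hcon
    push Not at hcon
    apply hcon.1
    have hins : (insert v C ⊆ S ∧ (∀ x ∈ insert v C, U x) ∧
        ∀ x ∈ insert v C, ∀ y ∈ insert v C, ¬ G.Adj x y) := by
      refine ⟨Finset.insert_subset hv hCS, ?_, ?_⟩
      · intro x hx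
        rcases Finset.mem_insert.mp hx with h1 | h1
        · rw [h1]; exact hUv
        · exact hCU x h1
      · have hvC : ∀ y ∈ C, ¬ G.Adj v y := by
          intro y hy hadj
          have := (hπ v hv).2 y ⟨hCS hy, hadj⟩
          rw [this] at hy
          exact hcon.2 hy
        intro x hx y hy
        rcases Finset.mem_insert.mp hx with h1 | h1 <;>
          rcases Finset.mem_insert.mp hy with h2 | h2
        · exact fun h => h.ne (h1.trans h2.symm)
        · rw [h1]; exact hvC y h2
        · rw [h2]; exact fun h => hvC x h1 h.symm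
        · exact hCI x h1 y h2
    exact hC2.le_of_ge hins (Finset.subset_insert v C) (Finset.mem_insert_self v C)
  have hall : ∀ v ∈ S, v ∈ C ∨ π v ∈ C := by
    intro v hv
    obtain ⟨⟨h1, h2⟩, _⟩ := hπ v hv
    rcases hU v hv (π v) h1 h2 with h | h
    · exact hmem v hv h
    · rcases hmem (π v) h1 h with h' | h'
      · exact Or.inr h'
      · rw [hππ v hv] at h'
        exact Or.inl h'
  have hsub : S ⊆ C ∪ C.image π := by
    intro v hv
    rw [Finset.mem_union]
    rcases hall v hv with h | h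
    · exact Or.inl h
    · right
      rw [Finset.mem_image]
      exact ⟨π v, h, hππ v hv⟩
  have h1 := Finset.card_le_card hsub
  have h2 := Finset.card_union_le C (C.image π)
  have h3 : (C.image π).card ≤ C.card := Finset.card_image_le
  omega

/-- `im(G) ≤ Γ(G)`. -/
theorem inducedMatchingNum_le : inducedMatchingNum G ≤ upperDom G := by
  obtain ⟨S, hS, hcard⟩ := exists_inducedMatchingNum G
  obtain ⟨C, _, _, hC, hle⟩ := exists_choice G S hS (fun _ => True) (fun _ _ _ _ _ => Or.inl trivial)
  have := indep_card_le G C hC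
  omega

/-- If an induced matching has `Γ(G)` edges then each vertex outside is adjacent to both ends of
one of its edges. -/
theorem outside (S : Finset V) (hS : IsInducedMatchingSet G S) (hcard : S.card = 2 * upperDom G)
    (x : V) (hx : x ∉ S) : ∃ v ∈ S, ∃ w ∈ S, G.Adj v w ∧ G.Adj x v ∧ G.Adj x w := by
  classical
  by_contra hcon
  push Not at hcon
  obtain ⟨C, hCS, hCU, hC, hle⟩ := exists_choice G S hS (fun v => ¬ G.Adj x v) (by
    intro v hv w hw hvw
    by_cases h : G.Adj x v
    · exact Or.inr (hcon v hv w hw hvw h)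
    · exact Or.inl h)
  have hxC : x ∉ C := fun h => hx (hCS h)
  have hins : ∀ a ∈ insert x C, ∀ b ∈ insert x C, ¬ G.Adj a b := by
    intro a ha b hb
    rcases Finset.mem_insert.mp ha with h1 | h1 <;> rcases Finset.mem_insert.mp hb with h2 | h2
    · exact fun h => h.ne (h1.trans h2.symm)
    · rw [h1]; exact hCU b h2
    · rw [h2]; exact fun h => hCU a h1 h.symm
    · exact hC a h1 b h2
  have := indep_card_le G _ hins
  rw [Finset.card_insert_of_notMem hxC] at this
  omega

/-- The vertex set of an induced matching with `Γ(G)` edges is a minimal total dominating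
set. -/
theorem minimal_of_matching (S : Finset V) (hS : IsInducedMatchingSet G S)
    (hcard : S.card = 2 * upperDom G) : Minimal (IsTotalDominating G) S := by
  classical
  constructor
  · intro v
    by_cases hv : v ∈ S
    · obtain ⟨w, ⟨h1, h2⟩, _⟩ := hS v hv
      exact ⟨w, h1, h2⟩
    · obtain ⟨a, ha, _, _, _, h, _⟩ := outside G S hS hcard v hv
      exact ⟨a, ha, h⟩
  · intro T hT hTS v hv
    obtain ⟨w, ⟨h1, h2⟩, _⟩ := hS v hv
    obtain ⟨u, hu, huw⟩ := hT w
    obtain ⟨z, _, hz⟩ := hS w h1
    have e1 := hz v ⟨hv, h2.symm⟩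
    have e2 := hz u ⟨hTS hu, huw⟩
    rw [e1, ← e2]
    exact hu

/-- The private neighbour of a vertex of a minimal total dominating set. -/
theorem exists_private (S : Finset V) (hS : Minimal (IsTotalDominating G) S) (v : V)
    (hv : v ∈ S) : ∃ w, G.Adj w v ∧ ∀ u ∈ S, G.Adj w u → u = v := by
  classical
  have h : ¬ IsTotalDominating G (S.erase v) := by
    intro h
    have := hS.le_of_le h (Finset.erase_subset v S) hv
    exact Finset.notMem_erase v S this
  unfold IsTotalDominating at h
  push Not at h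
  obtain ⟨w, hw⟩ := h
  obtain ⟨u, hu, huw⟩ := hS.prop w
  have key : ∀ z ∈ S, G.Adj w z → z = v := by
    intro z hz hwz
    by_contra hne
    exact hw z (Finset.mem_erase.mpr ⟨hne, hz⟩) hwz
  exact ⟨w, by rw [← key u hu huw]; exact huw, key⟩

/-- The main structural lemma: `|S| ≤ 2 Γ(G)` for every minimal total dominating set `S`, and in
case of equality `S` is the vertex set of an induced matching. -/
theorem main (S : Finset V) (hS : Minimal (IsTotalDominating G) S) :
    S.card ≤ 2 * upperDom G ∧ (S.card = 2 * upperDom G → IsInducedMatchingSet G S) := by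
  classical
  -- a minimal dominating set inside `S`
  have hSdom : IsDominating G S := fun v _ => hS.prop v
  obtain ⟨D, hDS, hD⟩ := exists_minimal_sub (P := IsDominating G) S hSdom
  have hDle := card_le_upperDom G hD
  -- private neighbours
  have hp : ∀ v : V, ∃ w, v ∈ S → G.Adj w v ∧ ∀ u ∈ S, G.Adj w u → u = v := by
    intro v
    by_cases hv : v ∈ S
    · obtain ⟨w, hw⟩ := exists_private G S hS v hv
      exact ⟨w, fun _ => hw⟩
    · exact ⟨v, fun h => absurd h hv⟩
  choose p hp using hp
  -- for `v ∈ S \ D` the private neighbour is in `D`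
  have hpD : ∀ v ∈ S \ D, p v ∈ D := by
    intro v hv
    obtain ⟨hv1, hv2⟩ := Finset.mem_sdiff.mp hv
    by_contra hcon
    obtain ⟨u, hu, hadj⟩ := hD.prop (p v) hcon
    have := (hp v hv1).2 u (hDS hu) hadj
    rw [this] at hu
    exact hv2 hu
  have hinj : Set.InjOn p (↑(S \ D) : Set V) := by
    intro v hv w hw h
    have hv' := (Finset.mem_sdiff.mp (Finset.mem_coe.mp hv)).1
    have hw' := (Finset.mem_sdiff.mp (Finset.mem_coe.mp hw)).1
    have h1 := (hp v hv').1
    rw [h] at h1
    exact (hp w hw').2 v hv' h1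
  have hcard1 : (S \ D).card ≤ D.card :=
    Finset.card_le_card_of_injOn p (fun v hv => Finset.mem_coe.mpr (hpD v (Finset.mem_coe.mp hv)))
      hinj
  have hcard2 : (S \ D).card + D.card = S.card := Finset.card_sdiff_add_card_eq_card hDS
  refine ⟨by omega, fun heq => ?_⟩
  have hcard3 : (S \ D).card = D.card := by omega
  have hDG : D.card = upperDom G := by omega
  -- surjectivity
  have hsurj : ∀ d ∈ D, ∃ v ∈ S \ D, p v = d := by
    have himg : (S \ D).image p = D := by
      apply Finset.eq_of_subset_of_card_le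
      · intro x hx
        obtain ⟨v, hv, rfl⟩ := Finset.mem_image.mp hx
        exact hpD v hv
      · rw [Finset.card_image_of_injOn hinj, hcard3]
    intro d hd
    rw [← himg] at hd
    obtain ⟨v, hv, h⟩ := Finset.mem_image.mp hd
    exact ⟨v, hv, h⟩
  -- each `d ∈ D` has a unique neighbour in `S`, which is outside `D`
  have hDuniq : ∀ d ∈ D, ∃ v, v ∈ S ∧ v ∉ D ∧ G.Adj d v ∧ ∀ u ∈ S, G.Adj d u → u = v := by
    intro d hd
    obtain ⟨v, hv, rfl⟩ := hsurj d hd
    obtain ⟨hv1, hv2⟩ := Finset.mem_sdiff.mp hv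
    exact ⟨v, hv1, hv2, (hp v hv1).1, (hp v hv1).2⟩
  have hDind : ∀ x ∈ D, ∀ y ∈ D, ¬ G.Adj x y := by
    intro x hx y hy hxy
    obtain ⟨v, _, hv2, _, hv4⟩ := hDuniq x hx
    have := hv4 y (hDS hy) hxy
    rw [this] at hy
    exact hv2 hy
  intro v hv
  by_cases hvD : v ∈ D
  · obtain ⟨w, hw1, _, hw3, hw4⟩ := hDuniq v hvD
    exact ⟨w, ⟨hw1, hw3⟩, fun y hy => hw4 y hy.1 hy.2⟩
  · -- `v ∈ S \ D`, with private neighbour `d = p v ∈ D`
    have hvSD : v ∈ S \ D := Finset.mem_sdiff.mpr ⟨hv, hvD⟩
    have hd := hpD v hvSD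
    obtain ⟨hd1, hd2⟩ := hp v hv
    refine ⟨p v, ⟨hDS hd, hd1.symm⟩, ?_⟩
    rintro u ⟨hu1, hu2⟩
    by_contra hne
    -- the private neighbour `w` of `d`
    obtain ⟨hw1, hw2⟩ := hp (p v) (hDS hd)
    set d := p v with hdv
    set w := p d with hwd
    -- `w` is not in `S`
    have hwS : w ∉ S := by
      intro hwS
      -- `w` is a neighbour of `d` in `S`, hence `w = v`
      have hwv : w = v := hd2 w hwS hw1.symm
      apply hne
      apply hw2 u hu1
      rw [hwv]
      exact hu2
    -- the set `(D \ {d}) ∪ {w, v}` is independent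
    have hvn : ∀ y ∈ D, y ≠ d → ¬ G.Adj v y := by
      intro y hy hyd hvy
      -- `y = p z` with unique neighbour `z = v`
      obtain ⟨z, hz1, hz2, hz3, hz4⟩ := hDuniq y hy
      obtain ⟨z', hz', hz'y⟩ := hsurj y hy
      obtain ⟨hz'1, hz'2⟩ := Finset.mem_sdiff.mp hz'
      have e1 : v = z' := by
        have h5 := (hp z' hz'1).2 v hv
        rw [hz'y] at h5
        exact h5 hvy.symm
      apply hyd
      rw [← hz'y, ← e1]
    have hwn : ∀ y ∈ S, y ≠ d → ¬ G.Adj w y := fun y hy hyd h => hyd (hw2 y hy h)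
    have hvd : v ≠ d := by
      intro h
      rw [h] at hvD
      exact hvD hd
    have hI : ∀ x ∈ insert w (insert v (D.erase d)), ∀ y ∈ insert w (insert v (D.erase d)),
        ¬ G.Adj x y := by
      intro x hx y hy
      rw [Finset.mem_insert, Finset.mem_insert, Finset.mem_erase] at hx hy
      rcases hx with hx | hx | hx <;> rcases hy with hy | hy | hy
      · exact fun h => h.ne (hx.trans hy.symm)
      · rw [hx, hy]; exact hwn v hv hvd
      · rw [hx]; exact hwn y (hDS hy.2) hy.1
      · rw [hx, hy]; exact fun h => hwn v hv hvd h.symm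
      · exact fun h => h.ne (hx.trans hy.symm)
      · rw [hx]; exact hvn y hy.2 hy.1
      · rw [hy]; exact fun h => hwn x (hDS hx.2) hx.1 h.symm
      · rw [hy]; exact fun h => hvn x hx.2 hx.1 h.symm
      · exact hDind x hx.2 y hy.2
    have hle := indep_card_le G _ hI
    have hv' : v ∉ D.erase d := fun h => hvD (Finset.mem_of_mem_erase h)
    have hw' : w ∉ insert v (D.erase d) := by
      intro h
      rcases Finset.mem_insert.mp h with h | h
      · rw [h] at hwS; exact hwS hv
      · exact hwS (hDS (Finset.mem_of_mem_erase h))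
    rw [Finset.card_insert_of_notMem hw', Finset.card_insert_of_notMem hv',
      Finset.card_erase_of_mem hd] at hle
    have : 0 < D.card := Finset.card_pos.mpr ⟨d, hd⟩
    omega

/-- The sets attaining `2 Γ(G)`. -/
theorem extremal_iff (S : Finset V) :
    (Minimal (IsTotalDominating G) S ∧ S.card = 2 * upperDom G) ↔
      (IsInducedMatchingSet G S ∧ S.card = 2 * upperDom G) :=
  ⟨fun h => ⟨(main G S h.1).2 h.2, h.2⟩, fun h => ⟨minimal_of_matching G S h.1 h.2, h.2⟩⟩

theorem upperTotalDom_le (hG : ∀ v, ∃ w, G.Adj v w) : upperTotalDom G ≤ 2 * upperDom G := by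
  obtain ⟨S, hS, hcard⟩ := exists_upperTotalDom G hG
  rw [← hcard]
  exact (main G S hS).1

/-- `Γ_t(G) = 2 Γ(G)` if and only if `im(G) = Γ(G)`. -/
theorem characterization (hG : ∀ v, ∃ w, G.Adj v w) :
    upperTotalDom G = 2 * upperDom G ↔ inducedMatchingNum G = upperDom G := by
  constructor
  · intro h
    obtain ⟨S, hS, hcard⟩ := exists_upperTotalDom G hG
    rw [h] at hcard
    apply le_antisymm (inducedMatchingNum_le G)
    exact card_le_inducedMatchingNum G ((main G S hS).2 hcard) hcard
  · intro h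
    obtain ⟨S, hS, hcard⟩ := exists_inducedMatchingNum G
    rw [h] at hcard
    apply le_antisymm (upperTotalDom_le G hG)
    rw [← hcard]
    exact card_le_upperTotalDom G (minimal_of_matching G S hS hcard)

end Finite

end Pool.Agent.Lib.P5135a5
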