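import Pool.Agent.Lib.P5135a5.Main

set_option autoImplicit false
set_option linter.unusedSectionVars false

namespace Pool.Agent.Lib.P5135a5

variable {W : Type} (H : SimpleGraph W) (k : ℕ)

/-- Adjacency in `(H ⊔ K₁) ∨ k K₂`. -/
def joinAdj : (Option W) ⊕ (Fin k × Bool) → (Option W) ⊕ (Fin k × Bool) → Prop
  | Sum.inl (some x), Sum.inl (some y) => H.Adj x y
  | Sum.inl _, Sum.inl _ => False
  | Sum.inl _, Sum.inr _ => True
  | Sum.inr _, Sum.inl _ => True
  | Sum.inr p, Sum.inr q => p.1 = q.1 ∧ p.2 ≠ q.2

/-- The graph `(H ⊔ K₁) ∨ k K₂`: add an isolated vertex to `H` and join the result completely to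
`k` disjoint edges. -/
def joinGraph : SimpleGraph ((Option W) ⊕ (Fin k × Bool)) where
  Adj := joinAdj H k
  symm := ⟨by
    rintro ((_ | x) | p) ((_ | y) | q) h
    · exact h
    · exact h
    · trivial
    · exact h
    · exact H.symm.symm _ _ h
    · trivial
    · trivial
    · trivial
    · exact ⟨h.1.symm, h.2.symm⟩⟩
  loopless := ⟨by
    rintro ((_ | x) | p) h
    · exact h
    · exact H.loopless.irrefl _ h
    · exact h.2 rfl⟩

variable [Fintype W]

variable {k}

theorem jadj_ss {x y : W} : (joinGraph H k).Adj (Sum.inl (some x)) (Sum.inl (some y)) ↔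
    H.Adj x y := Iff.rfl

theorem jadj_n {o : Option W} : ¬ (joinGraph H k).Adj (Sum.inl none) (Sum.inl o) := by
  cases o <;> exact fun h => h

theorem jadj_n' {o : Option W} : ¬ (joinGraph H k).Adj (Sum.inl o) (Sum.inl none) := by
  cases o <;> exact fun h => h

theorem jadj_lr (o : Option W) (p : Fin k × Bool) :
    (joinGraph H k).Adj (Sum.inl o) (Sum.inr p) := by
  cases o <;> trivial

theorem jadj_rl (o : Option W) (p : Fin k × Bool) :
    (joinGraph H k).Adj (Sum.inr p) (Sum.inl o) := by
  cases o <;> trivial

theorem jadj_rr {p q : Fin k × Bool} :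
    (joinGraph H k).Adj (Sum.inr p) (Sum.inr q) ↔ p.1 = q.1 ∧ p.2 ≠ q.2 := Iff.rfl

/-- `Γ(H) < k` implies `Γ(G) ≤ k`. -/
theorem upper_le (hk : 2 ≤ k) (hH : upperDom H < k) : upperDom (joinGraph H k) ≤ k := by
  classical
  obtain ⟨D, hD, hcard⟩ := exists_upperDom (joinGraph H k)
  rw [← hcard]
  by_cases hl : ∃ o, (Sum.inl o : (Option W) ⊕ (Fin k × Bool)) ∈ D
  · obtain ⟨o, ho⟩ := hl
    by_cases hr : ∃ p, (Sum.inr p : (Option W) ⊕ (Fin k × Bool)) ∈ D
    · obtain ⟨p, hp⟩ := hr
      have hdom : IsDominating (joinGraph H k) {Sum.inl o, Sum.inr p} := by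
        rintro (o' | q) _
        · exact ⟨Sum.inr p, by simp, jadj_lr H o' p⟩
        · exact ⟨Sum.inl o, by simp, jadj_rl H o q⟩
      have hsub : ({Sum.inl o, Sum.inr p} : Finset ((Option W) ⊕ (Fin k × Bool))) ⊆ D := by
        intro x hx
        simp only [Finset.mem_insert, Finset.mem_singleton] at hx
        rcases hx with rfl | rfl
        · exact ho
        · exact hp
      have := Finset.card_le_card (hD.le_of_le hdom hsub)
      refine this.trans (le_trans ?_ hk)
      exact (Finset.card_insert_le _ _).trans (by simp)
    · push Not at hr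
      -- `D` is contained in the left part
      have hnone : (Sum.inl none : (Option W) ⊕ (Fin k × Bool)) ∈ D := by
        by_contra hcon
        obtain ⟨u, hu, hadj⟩ := hD.prop _ hcon
        rcases u with o' | q
        · exact jadj_n H hadj
        · exact hr q hu
      set D' : Finset W := Finset.univ.filter (fun x => Sum.inl (some x) ∈ D) with hD'
      have hmem : ∀ x, x ∈ D' ↔ Sum.inl (some x) ∈ D := by
        intro x
        simp [hD']
      have hDmin : Minimal (IsDominating H) D' := by
        constructor
        · intro x hx
          rw [hmem] at hx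
          obtain ⟨u, hu, hadj⟩ := hD.prop _ hx
          rcases u with (_ | y) | q
          · exact absurd hadj (jadj_n' H)
          · exact ⟨y, (hmem y).mpr hu, hadj⟩
          · exact absurd hu (hr q)
        · intro E hE hED x hx
          have hdom : IsDominating (joinGraph H k)
              (insert (Sum.inl none) (E.image (fun x => Sum.inl (some x)))) := by
            rintro ((_ | y) | q) hv
            · exact absurd (Finset.mem_insert_self _ _) hv
            · have hy : y ∉ E := by
                intro hy
                apply hv
                rw [Finset.mem_insert]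
                right
                exact Finset.mem_image_of_mem _ hy
              obtain ⟨u, hu, hadj⟩ := hE y hy
              refine ⟨Sum.inl (some u), ?_, hadj⟩
              rw [Finset.mem_insert]
              right
              exact Finset.mem_image_of_mem _ hu
            · exact ⟨Sum.inl none, Finset.mem_insert_self _ _, jadj_rl H none q⟩
          have hsub : (insert (Sum.inl none) (E.image (fun x => Sum.inl (some x))) :
              Finset ((Option W) ⊕ (Fin k × Bool))) ⊆ D := by
            intro z hz
            rcases Finset.mem_insert.mp hz with rfl | hz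
            · exact hnone
            · obtain ⟨y, hy, rfl⟩ := Finset.mem_image.mp hz
              exact (hmem y).mp (hED hy)
          have := hD.le_of_le hdom hsub ((hmem x).mp hx)
          rcases Finset.mem_insert.mp this with h | h
          · simp at h
          · obtain ⟨y, hy, h'⟩ := Finset.mem_image.mp h
            have : y = x := by simpa using h'
            rwa [← this]
      have h1 := card_le_upperDom H hDmin
      have h2 : D ⊆ insert (Sum.inl none) (D'.image (fun x => Sum.inl (some x))) := by
        rintro ((_ | y) | q) hv
        · exact Finset.mem_insert_self _ _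
        · rw [Finset.mem_insert]
          right
          exact Finset.mem_image_of_mem _ ((hmem y).mpr hv)
        · exact absurd hv (hr q)
      have h3 := Finset.card_le_card h2
      have h4 := Finset.card_insert_le (Sum.inl none : (Option W) ⊕ (Fin k × Bool))
        (D'.image (fun x => Sum.inl (some x)))
      have h5 : (D'.image (fun x => (Sum.inl (some x) : (Option W) ⊕ (Fin k × Bool)))).card ≤
        D'.card := Finset.card_image_le
      omega
  · push Not at hl
    -- `D` is contained in the right part
    have hone : ∀ p ∈ D, ∀ q ∈ D, ∀ i b c, p = Sum.inr (i, b) → q = Sum.inr (i, c) → p = q := by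
      intro p hp q hq i b c h1 h2
      by_contra hne
      have hbc : b ≠ c := by
        rintro rfl
        exact hne (h1.trans h2.symm)
      -- remove `p`
      have hdom : IsDominating (joinGraph H k) (D.erase p) := by
        intro v hv
        by_cases hvp : v = p
        · refine ⟨q, Finset.mem_erase.mpr ⟨fun h => hne h.symm, hq⟩, ?_⟩
          rw [hvp, h1, h2]
          exact ⟨rfl, hbc⟩
        · have hvD : v ∉ D := fun h => hv (Finset.mem_erase.mpr ⟨hvp, h⟩)
          obtain ⟨u, hu, hadj⟩ := hD.prop v hvD
          by_cases hup : u = p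
          · -- `v` is adjacent to `p`; it is then `q` or in the left part
            rcases v with o | ⟨j, d⟩
            · refine ⟨q, Finset.mem_erase.mpr ⟨fun h => hne h.symm, hq⟩, ?_⟩
              rw [h2]
              exact jadj_lr H o _
            · exfalso
              rw [hup, h1] at hadj
              obtain ⟨e1, e2⟩ := hadj
              simp only at e1 e2
              apply hvD
              have hdc : d = c := by
                cases b <;> cases c <;> cases d <;> simp_all
              rw [e1, hdc, ← h2]
              exact hq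
          · exact ⟨u, Finset.mem_erase.mpr ⟨hup, hu⟩, hadj⟩
      have := hD.le_of_le hdom (Finset.erase_subset _ _) hp
      exact Finset.notMem_erase p D this
    have : D.card ≤ (Finset.univ : Finset (Fin k)).card := by
      rcases isEmpty_or_nonempty (Fin k) with hemp | ⟨⟨i0⟩⟩
      · exfalso
        exact hemp.false ⟨0, by omega⟩
      · apply Finset.card_le_card_of_injOn (fun x => match x with
          | Sum.inl _ => i0
          | Sum.inr p => p.1)
        · intro x _
          simp
        · rintro (o | ⟨i, b⟩) hp (o' | ⟨j, c⟩) hq h
          · exact absurd hp (hl o)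
          · exact absurd hp (hl o)
          · exact absurd hq (hl o')
          · simp only at h
            subst h
            exact hone _ hp _ hq i b c rfl rfl
    simpa using this

/-- `Γ(G) ≥ Γ(H) + 1`. -/
theorem le_upper : upperDom H + 1 ≤ upperDom (joinGraph H k) := by
  classical
  obtain ⟨D, hD, hcard⟩ := exists_upperDom H
  set E : Finset ((Option W) ⊕ (Fin k × Bool)) :=
    insert (Sum.inl none) (D.image (fun x => Sum.inl (some x))) with hE
  have hmem : ∀ x, Sum.inl (some x) ∈ E ↔ x ∈ D := by
    intro x
    simp [hE]
  have hEcard : E.card = D.card + 1 := by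
    rw [hE, Finset.card_insert_of_notMem, Finset.card_image_of_injective]
    · intro x y h
      simpa using h
    · simp
  rw [← hcard, ← hEcard]
  apply card_le_upperDom
  constructor
  · rintro ((_ | y) | q) hv
    · exact absurd (Finset.mem_insert_self _ _) hv
    · rw [hmem] at hv
      obtain ⟨u, hu, hadj⟩ := hD.prop y hv
      exact ⟨Sum.inl (some u), (hmem u).mpr hu, hadj⟩
    · exact ⟨Sum.inl none, Finset.mem_insert_self _ _, jadj_rl H none q⟩
  · intro F hF hFE
    have hFr : ∀ q, (Sum.inr q : (Option W) ⊕ (Fin k × Bool)) ∉ F := by
      intro q hq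
      have := hFE hq
      simp [hE] at this
    have hFn : (Sum.inl none : (Option W) ⊕ (Fin k × Bool)) ∈ F := by
      by_contra hcon
      obtain ⟨u, hu, hadj⟩ := hF _ hcon
      rcases u with o' | q
      · exact jadj_n H hadj
      · exact hFr q hu
    set D' : Finset W := Finset.univ.filter (fun x => Sum.inl (some x) ∈ F) with hD'
    have hmem' : ∀ x, x ∈ D' ↔ Sum.inl (some x) ∈ F := by
      intro x
      simp [hD']
    have hdom : IsDominating H D' := by
      intro x hx
      rw [hmem'] at hx
      obtain ⟨u, hu, hadj⟩ := hF _ hx
      rcases u with (_ | y) | q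
      · exact absurd hadj (jadj_n' H)
      · exact ⟨y, (hmem' y).mpr hu, hadj⟩
      · exact absurd hu (hFr q)
    have hsub : D' ⊆ D := by
      intro x hx
      exact (hmem x).mp (hFE ((hmem' x).mp hx))
    have hDD := hD.le_of_le hdom hsub
    rintro ((_ | y) | q) hv
    · exact hFn
    · exact (hmem' y).mp (hDD ((hmem y).mp hv))
    · simp [hE] at hv

/-- The right part is an induced matching with `k` edges. -/
theorem le_im : k ≤ inducedMatchingNum (joinGraph H k) := by
  classical
  apply card_le_inducedMatchingNum (joinGraph H k)
    (S := (Finset.univ : Finset (Fin k × Bool)).map Function.Embedding.inr)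
  · intro v hv
    obtain ⟨⟨i, b⟩, _, rfl⟩ := Finset.mem_map.mp hv
    refine ⟨Sum.inr (i, !b), ⟨by simp, ⟨rfl, by simp⟩⟩, ?_⟩
    rintro y ⟨hy1, hy2⟩
    obtain ⟨⟨j, c⟩, _, rfl⟩ := Finset.mem_map.mp hy1
    obtain ⟨h1, h2⟩ := hy2
    simp only at h1 h2
    subst h1
    cases b <;> cases c <;> simp_all
  · rw [Finset.card_map, Finset.card_univ, Fintype.card_prod, Fintype.card_fin, Fintype.card_bool]
    ring

/-- `im(G) ≤ max (Γ(H)) k`, for `k ≥ 2`. -/
theorem im_le (hk : 2 ≤ k) (hH : k ≤ upperDom H) :
    inducedMatchingNum (joinGraph H k) ≤ upperDom H := by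
  classical
  obtain ⟨S, hS, hcard⟩ := exists_inducedMatchingNum (joinGraph H k)
  by_cases hl : ∃ o, (Sum.inl o : (Option W) ⊕ (Fin k × Bool)) ∈ S
  · obtain ⟨o, ho⟩ := hl
    by_cases hr : ∃ p, (Sum.inr p : (Option W) ⊕ (Fin k × Bool)) ∈ S
    · obtain ⟨p, hp⟩ := hr
      have hsub : S ⊆ {Sum.inl o, Sum.inr p} := by
        intro z hz
        rw [Finset.mem_insert, Finset.mem_singleton]
        rcases z with o' | q
        · left
          obtain ⟨w, _, hw⟩ := hS _ hp
          rw [hw _ ⟨hz, jadj_rl H o' p⟩, hw _ ⟨ho, jadj_rl H o p⟩]
        · right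
          obtain ⟨w, _, hw⟩ := hS _ ho
          rw [hw _ ⟨hz, jadj_lr H o q⟩, hw _ ⟨hp, jadj_lr H o p⟩]
      have h1 := Finset.card_le_card hsub
      have h2 := Finset.card_insert_le (Sum.inl o : (Option W) ⊕ (Fin k × Bool)) {Sum.inr p}
      rw [Finset.card_singleton] at h2
      omega
    · push Not at hr
      set S' : Finset W := Finset.univ.filter (fun x => Sum.inl (some x) ∈ S) with hS'
      have hmem : ∀ x, x ∈ S' ↔ Sum.inl (some x) ∈ S := by
        intro x
        simp [hS']
      have hnone : (Sum.inl none : (Option W) ⊕ (Fin k × Bool)) ∉ S := by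
        intro h
        obtain ⟨w, ⟨h1, h2⟩, _⟩ := hS _ h
        rcases w with o' | q
        · exact jadj_n H h2
        · exact hr q h1
      have hIM : IsInducedMatchingSet H S' := by
        intro x hx
        obtain ⟨w, ⟨h1, h2⟩, h3⟩ := hS _ ((hmem x).mp hx)
        rcases w with (_ | y) | q
        · exact absurd h1 hnone
        · refine ⟨y, ⟨(hmem y).mpr h1, h2⟩, ?_⟩
          rintro z ⟨hz1, hz2⟩
          have := h3 (Sum.inl (some z)) ⟨(hmem z).mp hz1, hz2⟩
          simpa using this
        · exact absurd h1 (hr q)
      have hSmap : S = S'.map ⟨fun x => Sum.inl (some x), fun a b h => by simpa using h⟩ := by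
        ext z
        rw [Finset.mem_map]
        constructor
        · intro hz
          rcases z with (_ | y) | q
          · exact absurd hz hnone
          · exact ⟨y, (hmem y).mpr hz, rfl⟩
          · exact absurd hz (hr q)
        · rintro ⟨y, hy, rfl⟩
          exact (hmem y).mp hy
      have hc : S.card = S'.card := by
        rw [hSmap, Finset.card_map]
      have := card_le_inducedMatchingNum H hIM (hc.symm.trans hcard)
      exact this.trans (inducedMatchingNum_le H)
  · push Not at hl
    have hsub : S ⊆ (Finset.univ : Finset (Fin k × Bool)).map Function.Embedding.inr := by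
      rintro (o | q) hz
      · exact absurd hz (hl o)
      · simp
    have h1 := Finset.card_le_card hsub
    rw [Finset.card_map, Finset.card_univ, Fintype.card_prod, Fintype.card_fin,
      Fintype.card_bool] at h1
    omega

/-- `(H ⊔ K₁) ∨ k K₂` attains `Γ_t = 2 Γ` if and only if `Γ(H) < k`. -/
theorem reduction (hk : 2 ≤ k) :
    upperTotalDom (joinGraph H k) = 2 * upperDom (joinGraph H k) ↔ upperDom H < k := by
  rw [characterization]
  · constructor
    · intro h
      by_contra hcon
      push Not at hcon
      have h1 := im_le H hk hcon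
      have h2 := le_upper H (k := k)
      omega
    · intro h
      have h1 := upper_le H hk h
      have h2 := le_im H (k := k)
      have h3 := inducedMatchingNum_le (joinGraph H k)
      omega
  · have h0 : 0 < k := by omega
    rintro (o | p)
    · exact ⟨Sum.inr (⟨0, h0⟩, true), jadj_lr H o _⟩
    · exact ⟨Sum.inl none, jadj_rl H none p⟩

end Pool.Agent.Lib.P5135a5
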